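import Mathlib
import Pool.Agent.Run7.h767.ST.Gal

/-!
# The derivatives at `0` of partial zeta functions by prime ideals, and Stark's conjecture over
real quadratic fields

(A) Let `K` be a number field, `𝔣` an ideal, `0 ≠ 𝔣 ≠ 𝓞 K`, `P` a set of real embeddings of `K`;
suppose that `K` has a complex place or that `P` does not contain all the real embeddings. Let `A`
be a homomorphism from the ray class group modulo `𝔣 P` to a finite commutative group `G` (for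
instance the Artin map of an abelian extension). For `ρ ∈ G` the partial zeta function
`ζ(ρ, s) = ∑_(A(𝔞) = ρ) N(𝔞)^(-s)` has a continuation, analytic outside of `1`, it vanishes at `0`,
and for every `γ > π / 2`

  `ζ'(ρ, 0) = T e^(-Λ_γ) (1 / |G|) ∑_ψ conj ψ(ρ) exp (∑_(τ ∈ G) ψ(τ) S_τ(T)) + O(1 / T)`,

  `S_τ(T) = ∑_(𝔭, k : A(𝔭 ^ k) = τ) (1 / k) e^(i γ u) / Γ(1 + u)`, `u = k log N(𝔭) / T`,

where `ψ` runs through the characters of `G`, and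
`Λ_γ = ∫_0^∞ (e^(-t) - e^(i γ t) / Γ(1 + t)) dt / t`. This is unconditional; no continuation and no
zeros occur on the right: the prime ideals, sorted by their classes, are counted with the weight `1`
(the point `s = 0`). In the group ring of `G` the right side is the coefficient of `ρ` in
`T e^(-Λ_γ) exp (∑_τ S_τ(T) τ)`.

(B) Let `K` be a real quadratic field with the real embeddings `σ₁, σ₂`, `0 ≠ 𝔪 ≠ 𝓞 K`, and let `H`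
be the ray class field of `K` modulo `𝔪 ∞₂`, with a real embedding which extends `σ₁`. Stark's
conjecture (Q1) for `K, 𝔪` holds if and only if there are units `ε_ρ` of `H`, `ρ ∈ Gal(H/K)`, with
the conditions 2, 3 of Q1, with `H(ε_ρ^(1/2)) / K` abelian, and, in place of condition 1, `ε_ρ = lim_(T → ∞) exp (-2 E_ρ(T))`, where `E_ρ(T)` is
the right side in (A) (`P = {σ₂}`), a sum over prime ideals of `K` sorted by their Frobenius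
automorphisms in `H`. The limit may be taken along any sequence (any filter `l ≤ atTop`).
-/

set_option autoImplicit false
set_option linter.unusedSectionVars false

namespace Pool.Agent.Results.MP_1ef7cf_nt.StarkUnitsByPrimes

open NumberField Filter Topology Asymptotics

section defs

variable {K : Type} [Field K] [NumberField K] {G : Type} [Group G]

/-- `x` is positive at the real embeddings in `P`. -/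
def Pos (P : Set (K →+* ℝ)) (x : 𝓞 K) : Prop := ∀ σ ∈ P, 0 < σ (x : K)

/-- The ideals `𝔞` and `𝔟` are in the same class modulo `𝔣 P`: `(x) 𝔞 = (y) 𝔟` with `P`-positive
integers `x, y ≡ 1 mod 𝔣`. -/
def SameClass (𝔣 : Ideal (𝓞 K)) (P : Set (K →+* ℝ)) (𝔞 𝔟 : Ideal (𝓞 K)) : Prop :=
  ∃ x y : 𝓞 K, (x - 1 ∈ 𝔣 ∧ Pos P x) ∧ (y - 1 ∈ 𝔣 ∧ Pos P y) ∧
    Ideal.span {x} * 𝔞 = Ideal.span {y} * 𝔟

/-- On the ideals prime to `𝔣` the function `A` is a homomorphism from the ray class group modulo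
`𝔣 P` to `G` (its values at the other ideals are irrelevant). -/
structure IsRayHom (𝔣 : Ideal (𝓞 K)) (P : Set (K →+* ℝ)) (A : Ideal (𝓞 K) → G) : Prop where
  mul : ∀ 𝔞 𝔟, IsCoprime 𝔞 𝔣 → IsCoprime 𝔟 𝔣 → A (𝔞 * 𝔟) = A 𝔞 * A 𝔟
  ray : ∀ x : 𝓞 K, x - 1 ∈ 𝔣 → Pos P x → A (Ideal.span {x}) = 1

/-- `H` is the ray class field of `K` modulo `𝔣 P` and `A` is its Artin map (arithmetic
Frobenius automorphisms), on the ideals prime to `𝔣`. -/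
structure IsRayClassField (H : Type) [Field H] [NumberField H] [Algebra K H]
    (𝔣 : Ideal (𝓞 K)) (P : Set (K →+* ℝ)) (A : Ideal (𝓞 K) → (H ≃ₐ[K] H)) : Prop where
  galois : IsGalois K H
  frob : ∀ 𝔭 : Ideal (𝓞 K), 𝔭.IsPrime → 𝔭 ≠ ⊥ → IsCoprime 𝔭 𝔣 → ∀ 𝔓 : Ideal (𝓞 H), 𝔓.IsPrime →
    𝔓.comap (algebraMap (𝓞 K) (𝓞 H)) = 𝔭 → ∀ x : 𝓞 H, ∃ y ∈ 𝔓,
      ((y : 𝓞 H) : H) = A 𝔭 (x : H) - (x : H) ^ Ideal.absNorm 𝔭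
  mul : ∀ 𝔞 𝔟, IsCoprime 𝔞 𝔣 → IsCoprime 𝔟 𝔣 → A (𝔞 * 𝔟) = A 𝔞 * A 𝔟
  same : ∀ 𝔞 𝔟, IsCoprime 𝔞 𝔣 → IsCoprime 𝔟 𝔣 → (A 𝔞 = A 𝔟 ↔ SameClass 𝔣 P 𝔞 𝔟)
  surj : ∀ ρ, ∃ 𝔞, IsCoprime 𝔞 𝔣 ∧ A 𝔞 = ρ

/-- `Z` is the continuation of the partial zeta function
`∑_(𝔞 prime to 𝔣, A(𝔞) = ρ) N(𝔞)^(-s)`. -/
def IsPartialZeta (𝔣 : Ideal (𝓞 K)) (A : Ideal (𝓞 K) → G) (ρ : G) (Z : ℂ → ℂ) : Prop :=
  (∀ s, MeromorphicAt Z s) ∧ AnalyticAt ℂ Z 0 ∧ ∀ s : ℂ, 1 < s.re →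
    Z s = ∑' 𝔞 : {𝔞 : Ideal (𝓞 K) // IsCoprime 𝔞 𝔣 ∧ A 𝔞 = ρ},
      ((Ideal.absNorm 𝔞.1 : ℕ) : ℂ) ^ (-s)

open Classical in
/-- `1 / k` if `𝔞 = 𝔭 ^ k` with a prime ideal `𝔭` and `k ≥ 1`, and `0` if `𝔞` is not such a power:
`log N(rad 𝔞) / log N(𝔞)`. -/
noncomputable def wt (𝔞 : Ideal (𝓞 K)) : ℝ :=
  if IsPrimePow 𝔞 then Real.log (Ideal.absNorm 𝔞.radical) / Real.log (Ideal.absNorm 𝔞) else 0

/-- `(1 / k) e^(i γ u) / Γ(1 + u)`, `u = log N(𝔞) / T`, for `𝔞 = 𝔭 ^ k`. -/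
noncomputable def term (γ T : ℝ) (𝔞 : Ideal (𝓞 K)) : ℂ :=
  (wt 𝔞 : ℂ) * Complex.exp ((γ * (Real.log (Ideal.absNorm 𝔞) / T) : ℝ) * Complex.I) *
    ((Real.Gamma (1 + Real.log (Ideal.absNorm 𝔞) / T))⁻¹ : ℝ)

/-- `S_τ(T)`: the sum over the powers of prime ideals prime to `𝔣` with `A(𝔭 ^ k) = τ`. -/
noncomputable def primeSum (𝔣 : Ideal (𝓞 K)) (A : Ideal (𝓞 K) → G) (τ : G) (γ T : ℝ) : ℂ :=
  ∑' 𝔞 : {𝔞 : Ideal (𝓞 K) // IsCoprime 𝔞 𝔣 ∧ A 𝔞 = τ}, term γ T 𝔞.1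

/-- `Λ_γ = ∫_0^∞ (e^(-t) - e^(i γ t) / Γ(1 + t)) dt / t`. -/
noncomputable def Lam (γ : ℝ) : ℂ := ∫ t in Set.Ioi (0 : ℝ),
  (Complex.exp (-(t : ℂ)) - Complex.exp ((γ * t : ℝ) * Complex.I) *
    ((Real.Gamma (1 + t))⁻¹ : ℝ)) / t

/-- `E_ρ(T) = T e^(-Λ_γ) (1 / |G|) ∑_ψ conj ψ(ρ) exp (∑_τ ψ(τ) S_τ(T))`, `ψ` the characters. -/
noncomputable def approx (𝔣 : Ideal (𝓞 K)) (A : Ideal (𝓞 K) → G) (ρ : G) (γ T : ℝ) : ℂ :=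
  T * Complex.exp (-Lam γ) * ((Nat.card G : ℂ)⁻¹ *
    ∑ᶠ ψ : G →* ℂˣ, (starRingEnd ℂ) ((ψ ρ : ℂˣ) : ℂ) *
      Complex.exp (∑ᶠ τ : G, ((ψ τ : ℂˣ) : ℂ) * primeSum 𝔣 A τ γ T))

variable {H : Type} [Field H] [NumberField H] [Algebra K H]

/-- `K` is a real quadratic field with the real embeddings `σ₁ ≠ σ₂`. -/
def IsRealQuadratic (K : Type) [Field K] [NumberField K] (σ₁ σ₂ : K →+* ℝ) : Prop :=
  Module.finrank ℚ K = 2 ∧ σ₁ ≠ σ₂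

/-- Conditions 2 and 3 for the family `ε_ρ`, `ρ ∈ Gal(H/K)` (`ε_ρ` belongs to the class which
corresponds to `ρ`): `τ(ε_ρ) = ε_(ρ τ)`, and `|g(ε_ρ)| = 1` for every embedding `g` of `H` in `ℂ`
which restricts to `σ₂` on `K`. -/
def Cond (σ₂ : K →+* ℝ) (ε : (H ≃ₐ[K] H) → (𝓞 H)ˣ) : Prop :=
  (∀ ρ τ : H ≃ₐ[K] H, τ ((ε ρ : 𝓞 H) : H) = ((ε (ρ * τ) : 𝓞 H) : H)) ∧
    ∀ (ρ : H ≃ₐ[K] H) (g : H →+* ℂ), g.comp (algebraMap K H) = Complex.ofRealHom.comp σ₂ →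
      ‖g ((ε ρ : 𝓞 H) : H)‖ = 1

/-- The fields `H(ε_ρ^(1/2))` are abelian over `K`. -/
def SqrtAbelian (ε : (H ≃ₐ[K] H) → (𝓞 H)ˣ) : Prop :=
  ∀ ρ, ∃ θ : AlgebraicClosure H,
    θ ^ 2 = algebraMap H (AlgebraicClosure H) ((ε ρ : 𝓞 H) : H) ∧
      IsGalois K (IntermediateField.adjoin H {θ}) ∧
        ∀ σ τ : IntermediateField.adjoin H {θ} ≃ₐ[K] IntermediateField.adjoin H {θ},
          σ * τ = τ * σ

/-- The assertion of Q1 for `K`, `𝔪`, the ray class field `H` modulo `𝔪 ∞₂` with the Artin map `A`,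
and the real embedding `ι` of `H` which extends `σ₁`. -/
def Stark (σ₂ : K →+* ℝ) (𝔪 : Ideal (𝓞 K)) (A : Ideal (𝓞 K) → (H ≃ₐ[K] H)) (ι : H →+* ℝ) : Prop :=
  ∃ ε : (H ≃ₐ[K] H) → (𝓞 H)ˣ, (∀ ρ Z, IsPartialZeta 𝔪 A ρ Z →
    ((ι ((ε ρ : 𝓞 H) : H) : ℝ) : ℂ) = Complex.exp (-2 * deriv Z 0)) ∧ Cond σ₂ ε ∧ SqrtAbelian ε

/-- The same assertion with `ε_ρ = lim exp (-2 E_ρ(T))` in place of `ε_ρ = exp (-2 ζ'(0, ρ))`. -/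
def StarkLim (γ : ℝ) (l : Filter ℝ) (σ₂ : K →+* ℝ) (𝔪 : Ideal (𝓞 K))
    (A : Ideal (𝓞 K) → (H ≃ₐ[K] H)) (ι : H →+* ℝ) : Prop :=
  ∃ ε : (H ≃ₐ[K] H) → (𝓞 H)ˣ, (∀ ρ, Tendsto (fun T : ℝ => Complex.exp (-2 * approx 𝔪 A ρ γ T)) l
    (𝓝 ((ι ((ε ρ : 𝓞 H) : H) : ℝ) : ℂ))) ∧ Cond σ₂ ε ∧ SqrtAbelian ε

/-- `R` holds for every real quadratic field `K`, `0 ≠ 𝔪 ≠ 𝓞 K`, the ray class field `H` modulo
`𝔪 ∞₂`, its Artin map `A` and every embedding `ι` of `H` in `ℝ` which extends `σ₁`. -/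
def ForAll (R : ∀ (K H : Type) [Field K] [NumberField K] [Field H] [NumberField H] [Algebra K H],
    (K →+* ℝ) → Ideal (𝓞 K) → (Ideal (𝓞 K) → (H ≃ₐ[K] H)) → (H →+* ℝ) → Prop) : Prop :=
  ∀ (K H : Type) [Field K] [NumberField K] [Field H] [NumberField H] [Algebra K H]
    (σ₁ σ₂ : K →+* ℝ), IsRealQuadratic K σ₁ σ₂ → ∀ 𝔪 : Ideal (𝓞 K), 𝔪 ≠ ⊥ → 𝔪 ≠ ⊤ →
      ∀ A : Ideal (𝓞 K) → (H ≃ₐ[K] H), IsRayClassField H 𝔪 {σ₂} A →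
        ∀ ι : H →+* ℝ, ι.comp (algebraMap K H) = σ₁ → R K H σ₂ 𝔪 A ι

end defs

section proofs

variable {K : Type} [Field K] [NumberField K]

open Classical in
lemma term_eq (γ T : ℝ) (𝔞 : Ideal (𝓞 K)) : term γ T 𝔞 = Run7.h767.ST.tm γ T 𝔞 := by
  have h : (wt 𝔞 : ℝ) = Pool.Agent.Y773.VM 𝔞 / Run7.h767.ST.lg 𝔞 := by
    unfold wt Pool.Agent.Y773.VM Run7.h767.ST.lg
    split_ifs
    · rfl
    · rw [zero_div]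
  unfold term
  rw [h]
  rfl

lemma approx_eq {G : Type} [Group G] (𝔣 : Ideal (𝓞 K)) (A : Ideal (𝓞 K) → G) (ρ : G) (γ T : ℝ) :
    approx 𝔣 A ρ γ T = Run7.h767.ST.apG 𝔣 A ρ γ T := by
  have h : ∀ τ : G, primeSum 𝔣 A τ γ T = Run7.h767.ST.SG 𝔣 A τ γ T := by
    intro τ
    unfold primeSum Run7.h767.ST.SG
    exact tsum_congr fun 𝔞 => term_eq γ T 𝔞.1
  unfold approx Run7.h767.ST.apG
  simp only [h]
  rfl

lemma IsRayHom.isArt {G : Type} [Group G] {𝔣 : Ideal (𝓞 K)} {P : Set (K →+* ℝ)}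
    {A : Ideal (𝓞 K) → G} (h : IsRayHom 𝔣 P A) : Run7.h767.ST.IsArt 𝔣 P A :=
  ⟨h.mul, h.ray⟩

/-- (A) -/
lemma partA {P : Set (K →+* ℝ)} (hK : (∃ w : InfinitePlace K, w.IsComplex) ∨ P ≠ Set.univ)
    {𝔣 : Ideal (𝓞 K)} (hbot : 𝔣 ≠ ⊥) (htop : 𝔣 ≠ ⊤) {G : Type} [Group G] [Finite G]
    (hG : ∀ a b : G, a * b = b * a) {A : Ideal (𝓞 K) → G} (hA : IsRayHom 𝔣 P A) (ρ : G) :
    (∃ Z, IsPartialZeta 𝔣 A ρ Z ∧ ∀ s : ℂ, s ≠ 1 → AnalyticAt ℂ Z s) ∧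
      ∀ Z, IsPartialZeta 𝔣 A ρ Z → Z 0 = 0 ∧ ∀ γ : ℝ, Real.pi / 2 < γ →
        (fun T : ℝ => approx 𝔣 A ρ γ T - deriv Z 0) =O[atTop] fun T : ℝ => 1 / T := by
  obtain ⟨Z₀, h1, h2, h3, h4, h5⟩ := Run7.h767.ST.main_G hK hbot htop hG hA.isArt ρ
  have hZ₀ : IsPartialZeta 𝔣 A ρ Z₀ := ⟨h2, h1 0 (by norm_num), h3⟩
  refine ⟨⟨Z₀, hZ₀, h1⟩, fun Z hZ => ?_⟩
  have h6 : Z =ᶠ[𝓝 0] Z₀ := Run7.h767.ST.mero_uniq hZ.1 hZ₀.1 hZ.2.1 hZ₀.2.1 fun s hs => by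
    rw [hZ.2.2 s hs, hZ₀.2.2 s hs]
  refine ⟨h6.eq_of_nhds.trans h4, fun γ hγ => ?_⟩
  rw [h6.deriv_eq]
  exact (h5 γ hγ).congr_left fun T => by rw [approx_eq]

lemma tendsto_of_isBigO {f : ℝ → ℂ} {c : ℂ}
    (h : (fun T : ℝ => f T - c) =O[atTop] fun T : ℝ => 1 / T) : Tendsto f atTop (𝓝 c) := by
  have h1 : Tendsto (fun T : ℝ => f T - c) atTop (𝓝 0) :=
    h.trans_tendsto (tendsto_const_nhds.div_atTop tendsto_id)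
  have h2 := h1.add_const c
  simpa using h2

variable {H : Type} [Field H] [NumberField H] [Algebra K H]

lemma IsRayClassField.comm {𝔣 : Ideal (𝓞 K)} {P : Set (K →+* ℝ)}
    {A : Ideal (𝓞 K) → (H ≃ₐ[K] H)} (h : IsRayClassField H 𝔣 P A) (a b : H ≃ₐ[K] H) :
    a * b = b * a := by
  obtain ⟨𝔞, h𝔞, rfl⟩ := h.surj a
  obtain ⟨𝔟, h𝔟, rfl⟩ := h.surj b
  rw [← h.mul 𝔞 𝔟 h𝔞 h𝔟, ← h.mul 𝔟 𝔞 h𝔟 h𝔞, mul_comm]

lemma IsRayClassField.hom {𝔣 : Ideal (𝓞 K)} {P : Set (K →+* ℝ)}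
    {A : Ideal (𝓞 K) → (H ≃ₐ[K] H)} (h : IsRayClassField H 𝔣 P A) : IsRayHom 𝔣 P A := by
  have h1 : A 1 = 1 := by
    have h2 := h.mul 1 1 isCoprime_one_left isCoprime_one_left
    rw [mul_one] at h2
    exact left_eq_mul.1 h2
  refine ⟨h.mul, fun x hx hp => ?_⟩
  rw [← h1, h.same _ _ (Run7.h767.ST.cop_one hx) isCoprime_one_left]
  refine ⟨1, x, ⟨by rw [sub_self]; exact zero_mem _, fun σ _ => ?_⟩, ⟨hx, hp⟩, ?_⟩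
  · have h2 : ((1 : 𝓞 K) : K) = 1 := map_one _
    rw [h2, map_one]
    exact one_pos
  · rw [Ideal.span_singleton_one, mul_one, ← Ideal.one_eq_top, one_mul]

/-- the derivatives of the partial zeta functions of a ray class field -/
lemma exp_iff {P : Set (K →+* ℝ)} (hK : (∃ w : InfinitePlace K, w.IsComplex) ∨ P ≠ Set.univ)
    {𝔣 : Ideal (𝓞 K)} (hbot : 𝔣 ≠ ⊥) (htop : 𝔣 ≠ ⊤) {A : Ideal (𝓞 K) → (H ≃ₐ[K] H)}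
    (hA : IsRayClassField H 𝔣 P A) {γ : ℝ} (hγ : Real.pi / 2 < γ) {l : Filter ℝ} [l.NeBot]
    (hl : l ≤ atTop) (ρ : H ≃ₐ[K] H) (c : ℂ) :
    (∀ Z, IsPartialZeta 𝔣 A ρ Z → c = Complex.exp (-2 * deriv Z 0)) ↔
      Tendsto (fun T : ℝ => Complex.exp (-2 * approx 𝔣 A ρ γ T)) l (𝓝 c) := by
  obtain ⟨⟨Z₀, hZ₀, -⟩, h⟩ := partA hK hbot htop hA.comm hA.hom ρ
  have h2 : ∀ Z, IsPartialZeta 𝔣 A ρ Z → Tendsto (fun T : ℝ =>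
      Complex.exp (-2 * approx 𝔣 A ρ γ T)) l (𝓝 (Complex.exp (-2 * deriv Z 0))) := fun Z hZ =>
    (Complex.continuous_exp.tendsto _).comp
      (((tendsto_of_isBigO ((h Z hZ).2 γ hγ)).mono_left hl).const_mul (-2))
  constructor
  · intro h1
    rw [h1 Z₀ hZ₀]
    exact h2 Z₀ hZ₀
  · intro h1 Z hZ
    exact tendsto_nhds_unique h1 (h2 Z hZ)

end proofs

/-- See the header. -/
theorem result :
    -- (A) the formula, for every number field, modulus and homomorphism to a finite group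
    (∀ (K : Type) [Field K] [NumberField K] (P : Set (K →+* ℝ)),
      ((∃ w : InfinitePlace K, w.IsComplex) ∨ P ≠ Set.univ) →
        ∀ 𝔣 : Ideal (𝓞 K), 𝔣 ≠ ⊥ → 𝔣 ≠ ⊤ →
          ∀ (G : Type) [Group G] [Finite G], (∀ a b : G, a * b = b * a) →
            ∀ A : Ideal (𝓞 K) → G, IsRayHom 𝔣 P A → ∀ ρ : G,
              (∃ Z, IsPartialZeta 𝔣 A ρ Z ∧ ∀ s : ℂ, s ≠ 1 → AnalyticAt ℂ Z s) ∧
              ∀ Z, IsPartialZeta 𝔣 A ρ Z → Z 0 = 0 ∧ ∀ γ : ℝ, Real.pi / 2 < γ →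
                (∀ T > 0, Summable fun 𝔞 : Ideal (𝓞 K) => ‖term γ T 𝔞‖) ∧
                (fun T : ℝ => approx 𝔣 A ρ γ T - deriv Z 0) =O[atTop] fun T : ℝ => 1 / T) ∧
    -- (B) Q1
    ∀ (γ : ℝ), Real.pi / 2 < γ → ∀ l : Filter ℝ, l.NeBot → l ≤ atTop →
      ForAll (fun _ _ _ _ _ _ _ σ₂ 𝔪 A ι => Stark σ₂ 𝔪 A ι ↔ StarkLim γ l σ₂ 𝔪 A ι) ∧
      (ForAll (fun _ _ _ _ _ _ _ σ₂ 𝔪 A ι => Stark σ₂ 𝔪 A ι) ↔
        ForAll (fun _ _ _ _ _ _ _ σ₂ 𝔪 A ι => StarkLim γ l σ₂ 𝔪 A ι)) := by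
  refine ⟨?_, ?_⟩
  · intro K _ _ P hK 𝔣 hbot htop G _ _ hG A hA ρ
    obtain ⟨h1, h2⟩ := partA hK hbot htop hG hA ρ
    refine ⟨h1, fun Z hZ => ⟨(h2 Z hZ).1, fun γ hγ => ⟨fun T hT => ?_, (h2 Z hZ).2 γ hγ⟩⟩⟩
    exact (Run7.h767.ST.tm_summable γ hT).congr fun 𝔞 => by rw [term_eq]
  · intro γ hγ l hl1 hl
    have key : ForAll (fun _ _ _ _ _ _ _ σ₂ 𝔪 A ι => Stark σ₂ 𝔪 A ι ↔
        StarkLim γ l σ₂ 𝔪 A ι) := by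
      intro K H _ _ _ _ _ σ₁ σ₂ hK 𝔣 hbot htop A hA ι _
      have hP : ({σ₂} : Set (K →+* ℝ)) ≠ Set.univ := by
        intro h
        have h1 : σ₁ ∈ ({σ₂} : Set (K →+* ℝ)) := by rw [h]; exact Set.mem_univ _
        exact hK.2 h1
      have h1 : ∀ (ρ : H ≃ₐ[K] H) (c : ℂ), (∀ Z, IsPartialZeta 𝔣 A ρ Z →
          c = Complex.exp (-2 * deriv Z 0)) ↔
          Tendsto (fun T : ℝ => Complex.exp (-2 * approx 𝔣 A ρ γ T)) l (𝓝 c) := fun ρ c =>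
        exp_iff (Or.inr hP) hbot htop hA hγ hl ρ c
      unfold Stark StarkLim
      simp only [h1]
    refine ⟨key, ?_, ?_⟩
    · intro h K H _ _ _ _ _ σ₁ σ₂ hK 𝔣 hbot htop A hA ι hι
      exact (key K H σ₁ σ₂ hK 𝔣 hbot htop A hA ι hι).1 (h K H σ₁ σ₂ hK 𝔣 hbot htop A hA ι hι)
    · intro h K H _ _ _ _ _ σ₁ σ₂ hK 𝔣 hbot htop A hA ι hι
      exact (key K H σ₁ σ₂ hK 𝔣 hbot htop A hA ι hι).2 (h K H σ₁ σ₂ hK 𝔣 hbot htop A hA ι hι)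

end Pool.Agent.Results.MP_1ef7cf_nt.StarkUnitsByPrimes
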